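import Pool.Agent.helper46.ESM.Spec
import Pool.Agent.helper80.EN.Asm

/-!
Row es:FIN (helper9).
-/

set_option autoImplicit false

namespace Pool.Agent.helper46.ESM

open Subgroup Pool.Agent.helper80.EN

universe u

theorem FIN_conj {G : Type u} [Group G] {a t : G} (h : IsConj a t) (n : ℕ) (x : G) :
    ∃ x' : G, icom a x' n = 1 → icom t x n = 1 := by
  obtain ⟨c, hc⟩ := isConj_iff.1 h
  have hB := (Pool.Agent.helper80.EN.Asm.aBAS G).1
  refine ⟨c⁻¹ * x * c, fun h1 => ?_⟩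
  have h2 := hB a (c⁻¹ * x * c) c⁻¹ n
  rw [h1, inv_inv, hc] at h2
  have h3 : c * (c⁻¹ * x * c) * c⁻¹ = x := by group
  rw [h3] at h2
  rw [h2]
  group

/-- FIN -/
theorem FIN (hFCJ : FCJ_stmt.{u}) (hSIM : SIM_stmt.{u}) (hSNL : SNL_stmt.{u}) : FIN_stmt.{u} := by
  intro G _ a ha haH
  classical
  obtain ⟨T0, hT0, hnil⟩ := hFCJ G a haH
  refine ⟨T0, hT0, hnil, fun hN hq => ?_⟩
  obtain ⟨T, hT⟩ : ∃ T : Finset (closure (T0 : Set G)), ∀ t, t ∈ T ↔ (t : G) ∈ T0 := by
    have hfin : {t : closure (T0 : Set G) | (t : G) ∈ T0}.Finite :=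
      Set.Finite.preimage (Subtype.val_injective.injOn) T0.finite_toSet
    exact ⟨hfin.toFinset, fun t => by simp⟩
  have hcl : closure (T : Set (closure (T0 : Set G))) = ⊤ := by
    have h1 : (T : Set (closure (T0 : Set G))) = Subtype.val ⁻¹' (T0 : Set G) := by
      ext t
      simp [hT]
    rw [h1]
    exact closure_closure_coe_preimage
  have hB := (Pool.Agent.helper80.EN.Asm.aBAS (closure (T0 : Set G))).2.1 G (closure (T0 : Set G)).subtype
  have hval : ∀ (t g : closure (T0 : Set G)) (n : ℕ), icom (t : G) (g : G) n = 1 → icom t g n = 1 := by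
    intro t g n h
    apply Subtype.ext
    have h2 := hB t g n
    simp only [Subgroup.coe_subtype] at h2
    rw [h2, h]
    rfl
  have hRE : ∀ t ∈ T, RightEngel t := by
    intro t ht g
    have hc := hT0 t ((hT t).1 ht)
    obtain ⟨c, hc'⟩ := isConj_iff.1 hc
    obtain ⟨n, hn⟩ := ha (c⁻¹ * (g : G) * c)
    refine ⟨n, hval t g n ?_⟩
    have h2 := (Pool.Agent.helper80.EN.Asm.aBAS G).1 a (c⁻¹ * (g : G) * c) c⁻¹ n
    rw [hn, inv_inv, hc'] at h2
    have h3 : c * (c⁻¹ * (g : G) * c) * c⁻¹ = g := by group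
    rw [h3] at h2
    rw [h2]
    group
  obtain ⟨S, iS, α, hS, hFG, hnc, hsec, hα, hE, hl⟩ :=
    hSIM (closure (T0 : Set G)) T hcl hRE hnil hN hq
  have hInL : ¬ InL S := hSNL S α hS hFG hnc hα hE
  refine ⟨S, iS, α, hS, hFG, ?_, hInL, hsec, hα, hE, fun l hla => hl l fun t ht g => ?_⟩
  · by_contra hinf
    exact hInL (Pool.Agent.helper80.EN.Asm.aLFI S (not_infinite_iff_finite.1 hinf))
  · obtain ⟨x', hx'⟩ := FIN_conj (hT0 t ((hT t).1 ht)) l (g : G)
    exact hval t g l (hx' (hla x'))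

end Pool.Agent.helper46.ESM
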